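import Mathlib

namespace Pool.Agent.MP_8c5ed8_co

/-- A numerical semigroup: a set of naturals that contains zero, has finite complement and is
closed under addition. -/
structure IsNumericalSemigroup (S : Set ℕ) : Prop where
  zero_mem : 0 ∈ S
  finite_gaps : (Sᶜ).Finite
  add_mem : ∀ a ∈ S, ∀ b ∈ S, a + b ∈ S

/-- The multiset of parts of the partition attached to a set with finite complement:
one part for each gap `g`, equal to the number of elements of `S` below `g`. -/
noncomputable def phiParts (S : Set ℕ) (h : (Sᶜ).Finite) : Multiset ℕ :=
  h.toFinset.val.map (fun g => {s : ℕ | s ∈ S ∧ s < g}.ncard)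

/-- A partition is associated to a numerical semigroup if its parts are those attached to one. -/
def IsSemigroupPartition {k : ℕ} (p : Nat.Partition k) : Prop :=
  ∃ (S : Set ℕ) (hS : IsNumericalSemigroup S), p.parts = phiParts S hS.finite_gaps

/-- The number of partitions of size at most `n`. -/
noncomputable def numPartitionsUpTo (n : ℕ) : ℕ :=
  ∑ k ∈ Finset.range (n + 1), Nat.card (Nat.Partition k)

/-- The number of partitions of size at most `n` associated to a numerical semigroup. -/
noncomputable def numSemigroupPartitionsUpTo (n : ℕ) : ℕ :=
  ∑ k ∈ Finset.range (n + 1), Nat.card {p : Nat.Partition k // IsSemigroupPartition p}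

end Pool.Agent.MP_8c5ed8_co
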